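import Pool.Agent.H44.MS.Basics

/-!
# Microsquares, module BL: the blocks have bounded logarithmic mass
-/

set_option autoImplicit false

namespace Pool.Agent.H65.MS

open Finset Real Pool.Agent.H44.MS

/-- The primes of a block are at most the square of each other. -/
theorem bl_le_sq {z p q i : ℕ} (hp : p.Prime) (hq : q.Prime) (hpz : p ≤ z)
    (hpi : bi z p = i) (hqi : bi z q = i) : p ≤ q ^ 2 := by
  unfold bi at hpi hqi
  have hz0 : z ≠ 0 := by have := hp.pos; omega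
  have hlp : Nat.log p z ≠ 0 := by
    have := Nat.log_pos hp.one_lt hpz
    omega
  have h1 : 2 ^ i ≤ Nat.log p z := by rw [← hpi]; exact Nat.pow_log_le_self 2 hlp
  have h2 : p ^ 2 ^ i ≤ z := Nat.pow_le_of_le_log hz0 h1
  have h3 : Nat.log q z < 2 ^ (i + 1) := by
    rw [← hqi]; exact Nat.lt_pow_succ_log_self (by norm_num) _
  have h4 : z < q ^ 2 ^ (i + 1) := Nat.lt_pow_of_log_lt hq.one_lt h3
  have h5 : p ^ 2 ^ i < (q ^ 2) ^ 2 ^ i := by
    rw [← pow_mul, ← pow_succ']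
    exact h2.trans_lt h4
  exact (lt_of_pow_lt_pow_left₀ _ (Nat.zero_le _) h5).le

/-- (BL) The blocks have bounded logarithmic mass. -/
theorem pf_BL (h : T_MER) : T_BL := by
  classical
  obtain ⟨C, hC, hM⟩ := h
  have hl2 : 0 < Real.log 2 := Real.log_pos one_lt_two
  refine ⟨1 / 2 + (Real.log 2 + C / Real.log 2), by positivity, fun z i => ?_⟩
  by_cases hex : ∃ q, q.Prime ∧ q ≤ z ∧ bi z q = i
  · set x := Nat.find hex with hxdef
    obtain ⟨hx1, hx2, hx3⟩ := Nat.find_spec hex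
    rw [← hxdef] at hx1 hx2 hx3
    have hmin : ∀ p : ℕ, p.Prime → p ≤ z → bi z p = i → x ≤ p := fun p h1 h2 h3 =>
      Nat.find_min' hex ⟨h1, h2, h3⟩
    have hx2' := hx1.two_le
    have hxR : (2 : ℝ) ≤ x := by exact_mod_cast hx2'
    have hxx : x ≤ x ^ 2 := by nlinarith
    have h1 : ∑ p ∈ Icc 1 z, ic (p.Prime ∧ bi z p = i) / (p : ℝ) ≤
        ∑ p ∈ Icc x (x ^ 2), ic p.Prime / (p : ℝ) := by
      have e1 : ∑ p ∈ Icc 1 z, ic (p.Prime ∧ bi z p = i) / (p : ℝ) =
          ∑ p ∈ (Icc 1 z).filter (fun p => p.Prime ∧ bi z p = i), 1 / (p : ℝ) := by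
        rw [← sum_ic_mul]
        refine Finset.sum_congr rfl fun p _ => ?_
        ring
      have e2 : ∑ p ∈ Icc x (x ^ 2), ic p.Prime / (p : ℝ) =
          ∑ p ∈ (Icc x (x ^ 2)).filter (fun p => p.Prime), 1 / (p : ℝ) := by
        rw [← sum_ic_mul]
        refine Finset.sum_congr rfl fun p _ => ?_
        ring
      rw [e1, e2]
      refine Finset.sum_le_sum_of_subset_of_nonneg ?_ fun p _ _ => by positivity
      intro p hp
      rw [Finset.mem_filter, Finset.mem_Icc] at hp ⊢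
      obtain ⟨⟨h1, h2⟩, h3, h4⟩ := hp
      exact ⟨⟨hmin p h3 h2 h4, bl_le_sq h3 hx1 h2 h4 hx3⟩, h3⟩
    refine h1.trans ?_
    have e3 : ∑ p ∈ Icc x (x ^ 2), ic p.Prime / (p : ℝ) =
        ic x.Prime / (x : ℝ) + ∑ p ∈ Ioc x (x ^ 2), ic p.Prime / (p : ℝ) := by
      rw [← Finset.Ioc_insert_left hxx, Finset.sum_insert (by simp)]
    rw [e3]
    have h2 := (abs_le.1 (hM x (x ^ 2) hx2' hxx).1).2
    have hlx : Real.log 2 ≤ Real.log x := Real.log_le_log (by norm_num) hxR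
    have hlx0 : 0 < Real.log x := hl2.trans_le hlx
    have h3 : Real.log (Real.log ((x ^ 2 : ℕ) : ℝ)) = Real.log 2 + Real.log (Real.log x) := by
      rw [Nat.cast_pow, Real.log_pow, Real.log_mul (by norm_num) hlx0.ne']
      norm_num
    have h4 : C / Real.log x ≤ C / Real.log 2 := div_le_div_of_nonneg_left hC.le hl2 hlx
    have h5 : ic x.Prime / (x : ℝ) ≤ 1 / 2 := by
      rw [ic_pos hx1]
      exact one_div_le_one_div_of_le (by norm_num) hxR
    rw [h3] at h2
    linarith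
  · have h0 : ∑ p ∈ Icc 1 z, ic (p.Prime ∧ bi z p = i) / (p : ℝ) = 0 := by
      refine Finset.sum_eq_zero fun p hp => ?_
      rw [Finset.mem_Icc] at hp
      rw [ic_neg, zero_div]
      rintro ⟨h1, h2⟩
      exact hex ⟨p, h1, hp.2, h2⟩
    rw [h0]
    positivity

end Pool.Agent.H65.MS
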