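import Pool.Agent.H44.MS.Basics

/-!
# Microsquares, module RV: numbers without small prime factors, weight v^Om
-/

set_option autoImplicit false

namespace Pool.Agent.H65.MS

open Finset Real Pool.Agent.H44.MS

/-- The value at a prime of the multiplicative function. -/
theorem rv_prime (v : ℝ) (z p : ℕ) (hp : p.Prime) :
    ic (Rough z p) * v ^ Om z p = if z < p then v else 0 := by
  by_cases hz : z < p
  · rw [if_pos hz, Om_prime z hp, if_pos hz, pow_one, ic_pos, one_mul]
    intro q hq hd
    rwa [(Nat.prime_dvd_prime_iff_eq hq hp).1 hd]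
  · rw [if_neg hz, ic_neg, zero_mul]
    intro h
    exact hz (h p hp dvd_rfl)

theorem pf_RV (h1 : T_HR) (h2 : T_MER) : T_RV := by
  obtain ⟨C1, hC1, hHR⟩ := h1 (3 / 2) (by norm_num)
  obtain ⟨C, hC, hM⟩ := h2
  have hl2 : 0 < Real.log 2 := Real.log_pos one_lt_two
  set K : ℝ := 3 / 2 * (C / Real.log 2) with hK
  refine ⟨C1 * Real.exp K, by positivity, ?_⟩
  intro v hv1 hv2 z x hz hx
  have hzR : (2 : ℝ) ≤ z := by exact_mod_cast hz
  have hxR : (z : ℝ) ≤ x := by exact_mod_cast hx
  have hlz : Real.log 2 ≤ Real.log z := Real.log_le_log (by norm_num) hzR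
  have hlz0 : 0 < Real.log z := lt_of_lt_of_le hl2 hlz
  have hlx : Real.log z ≤ Real.log x := Real.log_le_log (by linarith) hxR
  have hlx0 : 0 < Real.log x := lt_of_lt_of_le hlz0 hlx
  set h : ℕ → ℝ := fun n => ic (Rough z n) * v ^ Om z n with hh
  have hpr : ∀ p : ℕ, p.Prime → h p = if z < p then v else 0 :=
    fun p hp => rv_prime v z p hp
  have hb := hHR h (by
      simp only [hh]
      rw [ic_pos (rough_one z), Om_one, pow_zero, mul_one]) (by
      intro m n hm hn
      simp only [hh]
      rw [Om_mul z hm.ne' hn.ne', pow_add, ic_congr (rough_mul z m n), ic_and]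
      ring) (by
      intro p hp
      rw [hpr p hp]
      have hp2 : (2 : ℝ) ≤ p := by exact_mod_cast hp.two_le
      split_ifs
      · exact ⟨by linarith, by linarith, by linarith⟩
      · exact ⟨le_refl _, by norm_num, by linarith⟩) x (by omega)
  refine hb.trans ?_
  -- the exponent
  have hexp : ∑ p ∈ Icc 1 x, ic p.Prime * h p / p ≤
      K + v * (Real.log (Real.log x) - Real.log (Real.log z)) := by
    have e0 : ∑ p ∈ Icc 1 x, ic p.Prime * h p / p = v * ∑ p ∈ Ioc z x, ic p.Prime / p := by
      have hsub : Ioc z x ⊆ Icc 1 x := by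
        intro p hp
        rw [Finset.mem_Ioc] at hp
        rw [Finset.mem_Icc]
        omega
      rw [← Finset.sum_subset hsub, Finset.mul_sum]
      · refine Finset.sum_congr rfl fun p hp => ?_
        rw [Finset.mem_Ioc] at hp
        by_cases hpp : p.Prime
        · rw [hpr p hpp, if_pos hp.1, ic_pos hpp]
          ring
        · rw [ic_neg hpp]
          ring
      · intro p hp hp'
        rw [Finset.mem_Icc] at hp
        rw [Finset.mem_Ioc] at hp'
        by_cases hpp : p.Prime
        · rw [hpr p hpp, if_neg (by omega)]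
          simp
        · rw [ic_neg hpp]
          simp
    obtain ⟨m3, -⟩ := hM z x hz hx
    have m3' := (abs_le.1 m3).2
    have hCz : C / Real.log z ≤ C / Real.log 2 := div_le_div_of_nonneg_left hC.le hl2 hlz
    have hC0 : 0 ≤ C / Real.log 2 := by positivity
    have hv0 : 0 ≤ v := by linarith
    rw [e0]
    have h5 : ∑ p ∈ Ioc z x, ic p.Prime / (p : ℝ) ≤
        (Real.log (Real.log x) - Real.log (Real.log z)) + C / Real.log 2 := by linarith
    calc v * ∑ p ∈ Ioc z x, ic p.Prime / (p : ℝ)
        ≤ v * ((Real.log (Real.log x) - Real.log (Real.log z)) + C / Real.log 2) :=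
          mul_le_mul_of_nonneg_left h5 hv0
      _ = v * (Real.log (Real.log x) - Real.log (Real.log z)) + v * (C / Real.log 2) := by ring
      _ ≤ _ := by
          have := mul_le_mul_of_nonneg_right hv2 hC0
          linarith
  have hE : Real.exp (∑ p ∈ Icc 1 x, ic p.Prime * h p / p) ≤
      Real.exp K * (Real.log x / Real.log z) ^ v := by
    refine (Real.exp_le_exp.2 hexp).trans (le_of_eq ?_)
    rw [Real.exp_add]
    congr 1
    rw [Real.rpow_def_of_pos (by positivity), Real.log_div hlx0.ne' hlz0.ne']
    congr 1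
    ring
  have hx0 : (0 : ℝ) ≤ x := Nat.cast_nonneg x
  calc C1 * x / Real.log x * Real.exp (∑ p ∈ Icc 1 x, ic p.Prime * h p / p)
      ≤ C1 * x / Real.log x * (Real.exp K * (Real.log x / Real.log z) ^ v) :=
        mul_le_mul_of_nonneg_left hE (by positivity)
    _ = C1 * Real.exp K * x / Real.log z * (Real.log x / Real.log z) ^ (v - 1) := by
        rw [Real.rpow_sub_one (by positivity)]
        field_simp

end Pool.Agent.H65.MS
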