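import Pool.Agent.H44.MS.Basics

/-!
# Microsquares, module SG: the logarithmic sum over smooth good numbers
-/

set_option autoImplicit false

namespace Pool.Agent.H65.MS

open Finset Real Pool.Agent.H44.MS

/-- the completely multiplicative function of the module -/
noncomputable def sgf (z : ℕ) : ℕ →* ℝ where
  toFun n := ic (Smooth z n ∧ Good 0 z n) / n
  map_one' := by rw [ic_pos ⟨smooth_one z, good_one 0 z⟩]; norm_num
  map_mul' m n := by
    have e : (Smooth z (m * n) ∧ Good 0 z (m * n)) ↔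
        ((Smooth z m ∧ Good 0 z m) ∧ (Smooth z n ∧ Good 0 z n)) := by
      rw [smooth_mul, good_mul]
      tauto
    rw [ic_congr e, ic_and, Nat.cast_mul]
    exact mul_div_mul_comm _ _ _ _

theorem sgf_apply (z n : ℕ) : sgf z n = ic (Smooth z n ∧ Good 0 z n) / n := rfl

theorem sgf_nonneg (z n : ℕ) : 0 ≤ sgf z n := by
  rw [sgf_apply]
  exact div_nonneg (ic_nonneg _) (Nat.cast_nonneg _)

theorem sg_le_prod (z X : ℕ) : ∑ n ∈ Icc 1 X, ic (Smooth z n ∧ Good 0 z n) / n ≤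
    ∏ p ∈ Icc 1 z with p.Prime, (1 - sgf z p)⁻¹ := by
  have h1 := (EulerProduct.summable_and_hasSum_factoredNumbers_prod_filter_prime_geometric
    (f := sgf z) (fun {p} hp => by
      rw [Real.norm_of_nonneg (sgf_nonneg z p), sgf_apply]
      have h2 : (2 : ℝ) ≤ p := by exact_mod_cast hp.two_le
      rw [div_lt_one (by linarith)]
      linarith [ic_le_one (Smooth z p ∧ Good 0 z p)]) (Icc 1 z)).2
  have h2 := (hasSum_subtype_iff_indicator (f := sgf z)
    (s := Nat.factoredNumbers (Icc 1 z))).1 h1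
  have h3 := sum_le_hasSum (Icc 1 X) (fun n _ => Set.indicator_nonneg
    (fun m _ => sgf_nonneg z m) n) h2
  refine le_trans (le_of_eq ?_) h3
  refine Finset.sum_congr rfl fun n hn => ?_
  rw [Finset.mem_Icc] at hn
  by_cases hs : Smooth z n
  · rw [Set.indicator_of_mem]
    · rfl
    · refine Nat.mem_factoredNumbers.2 ⟨by omega, fun p hp => ?_⟩
      rw [Finset.mem_Icc]
      exact ⟨(Nat.prime_of_mem_primeFactorsList hp).pos,
        hs p (Nat.prime_of_mem_primeFactorsList hp) (Nat.dvd_of_mem_primeFactorsList hp)⟩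
  · rw [ic_neg (fun h => hs h.1), zero_div]
    symm
    rw [Set.indicator_apply_eq_zero]
    intro _
    change ic (Smooth z n ∧ Good 0 z n) / (n : ℝ) = 0
    rw [ic_neg (fun h => hs h.1), zero_div]

theorem sg_tel {x : ℕ} (hx : 1 ≤ x) : ∑ n ∈ Icc 1 x, 1 / ((n : ℝ) * (n - 1)) = 1 - 1 / x := by
  induction x, hx using Nat.le_induction with
  | base => simp
  | succ x hx ih =>
    rw [Finset.sum_Icc_succ_top (by omega), ih]
    have : (0 : ℝ) < x := by exact_mod_cast hx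
    push_cast
    rw [add_sub_cancel_right]
    field_simp
    ring

theorem sg_fac {z p : ℕ} (hp : p.Prime) (hpz : p ≤ z) :
    (1 - sgf z p)⁻¹ ≤ Real.exp (ic (p % 4 ≠ 3) / p + 1 / ((p : ℝ) * (p - 1))) := by
  have h2 : (2 : ℝ) ≤ p := by exact_mod_cast hp.two_le
  rw [sgf_apply]
  by_cases h : p % 4 = 3
  · rw [ic_neg (p := Smooth z p ∧ Good 0 z p) (fun hh => hh.2 p hp h hp.pos hpz dvd_rfl), zero_div,
      sub_zero, inv_one]
    exact Real.one_le_exp (by
      have h3 : (0 : ℝ) ≤ p - 1 := by linarith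
      have := ic_nonneg (p % 4 ≠ 3)
      positivity)
  · rw [ic_pos h]
    have e0 : ic (Smooth z p ∧ Good 0 z p) / (p : ℝ) ≤ 1 / p := by
      exact div_le_div_of_nonneg_right (ic_le_one _) (by linarith)
    have h5 : 1 / (p : ℝ) ≤ 1 / 2 := one_div_le_one_div_of_le (by norm_num) h2
    have e2 : (1 - ic (Smooth z p ∧ Good 0 z p) / (p : ℝ))⁻¹ ≤ (1 - 1 / (p : ℝ))⁻¹ :=
      inv_anti₀ (by linarith) (by linarith)
    refine e2.trans ?_
    have e1 : (1 - 1 / (p : ℝ))⁻¹ = (1 / p + 1 / ((p : ℝ) * (p - 1))) + 1 := by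
      have h3 : (p : ℝ) - 1 ≠ 0 := by linarith
      field_simp
      ring
    rw [e1]
    exact Real.add_one_le_exp _

/-- (SG) The logarithmic sum over smooth good numbers. -/
theorem pf_SG (h : T_MER) : T_SG := by
  obtain ⟨C, hC, hM⟩ := h
  have hl2 : 0 < Real.log 2 := Real.log_pos one_lt_two
  set K : ℝ := 3 / 2 + (1 / 2) * (-Real.log (Real.log 2) + 2 * (C / Real.log 2)) with hK
  refine ⟨Real.exp K, Real.exp_pos _, fun z X hz => ?_⟩
  have hzR : (2 : ℝ) ≤ z := by exact_mod_cast hz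
  have hlz : Real.log 2 ≤ Real.log z := Real.log_le_log (by norm_num) hzR
  have hlz0 : 0 < Real.log z := lt_of_lt_of_le hl2 hlz
  refine (sg_le_prod z X).trans ?_
  have h1 : ∏ p ∈ Icc 1 z with p.Prime, (1 - sgf z p)⁻¹ ≤
      ∏ p ∈ Icc 1 z with p.Prime, Real.exp (ic (p % 4 ≠ 3) / p + 1 / ((p : ℝ) * (p - 1))) := by
    refine Finset.prod_le_prod (fun p hp => ?_) fun p hp => ?_
    · have hp' := (Finset.mem_filter.1 hp).2
      have h2 : (2 : ℝ) ≤ p := by exact_mod_cast hp'.two_le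
      have h3 : sgf z p ≤ 1 := by
        rw [sgf_apply, div_le_one (by linarith)]
        linarith [ic_le_one (Smooth z p ∧ Good 0 z p)]
      exact inv_nonneg.2 (by linarith)
    · exact sg_fac (Finset.mem_filter.1 hp).2 (Finset.mem_Icc.1 (Finset.mem_filter.1 hp).1).2
  refine h1.trans ?_
  rw [← Real.exp_sum, Finset.sum_add_distrib]
  have e2 : ∑ p ∈ Icc 1 z with p.Prime, 1 / ((p : ℝ) * (p - 1)) ≤ 1 := by
    have h3 : ∑ p ∈ Icc 1 z with p.Prime, 1 / ((p : ℝ) * (p - 1)) ≤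
        ∑ p ∈ Icc 1 z, 1 / ((p : ℝ) * (p - 1)) := by
      refine Finset.sum_le_sum_of_subset_of_nonneg (Finset.filter_subset _ _) fun p hp _ => ?_
      have : (1 : ℝ) ≤ p := by exact_mod_cast (Finset.mem_Icc.1 hp).1
      have h4 : (0 : ℝ) ≤ p - 1 := by linarith
      positivity
    refine h3.trans ?_
    rw [sg_tel (by omega)]
    have : (0 : ℝ) ≤ 1 / (z : ℝ) := by positivity
    linarith
  have e1 : ∑ p ∈ Icc 1 z with p.Prime, ic (p % 4 ≠ 3) / (p : ℝ) ≤
      1 / 2 + ∑ p ∈ Ioc 2 z, ic (p.Prime ∧ p % 4 ≠ 3) / (p : ℝ) := by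
    have h3 : ∑ p ∈ Icc 1 z with p.Prime, ic (p % 4 ≠ 3) / (p : ℝ) =
        ∑ p ∈ Icc 1 z, ic (p.Prime ∧ p % 4 ≠ 3) / (p : ℝ) := by
      rw [← sum_ic_mul]
      refine Finset.sum_congr rfl fun p _ => ?_
      rw [ic_and]
      ring
    have h4 : Icc 1 z = insert 1 (insert 2 (Ioc 2 z)) := by
      ext p
      simp only [Finset.mem_insert, Finset.mem_Ioc, Finset.mem_Icc]
      omega
    rw [h3, h4, Finset.sum_insert (by simp), Finset.sum_insert (by simp)]
    have h5 : ic (Nat.Prime 1 ∧ 1 % 4 ≠ 3) = 0 := ic_neg (fun hh => Nat.not_prime_one hh.1)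
    have h6 : ic (Nat.Prime 2 ∧ 2 % 4 ≠ 3) ≤ 1 := ic_le_one _
    have h7 : ic (Nat.Prime 2 ∧ 2 % 4 ≠ 3) / ((2 : ℕ) : ℝ) ≤ 1 / 2 := by
      have h8 : ((2 : ℕ) : ℝ) = 2 := by norm_num
      rw [h8]
      exact div_le_div_of_nonneg_right h6 (by norm_num)
    rw [h5, zero_div, zero_add]
    linarith
  have e3 : ∑ p ∈ Ioc 2 z, ic (p.Prime ∧ p % 4 ≠ 3) / (p : ℝ) =
      1 / 2 * (∑ p ∈ Ioc 2 z, ic p.Prime / p + ∑ p ∈ Ioc 2 z, ic p.Prime * chi p / p) := by
    rw [← Finset.sum_add_distrib, Finset.mul_sum]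
    refine Finset.sum_congr rfl fun p hp => ?_
    rw [Finset.mem_Ioc] at hp
    by_cases hpp : p.Prime
    · rw [ic_pos hpp]
      have hodd : p % 2 = 1 := hpp.eq_two_or_odd.resolve_left (by omega)
      by_cases h3 : p % 4 = 3
      · rw [ic_neg (fun hh => hh.2 h3), chi_of_three h3]
        ring
      · rw [ic_pos ⟨hpp, h3⟩, chi_of_one (by omega)]
        ring
    · rw [ic_neg hpp, ic_neg (fun hh => hpp hh.1)]
      ring
  obtain ⟨m1, m2⟩ := hM 2 z le_rfl hz
  have m1' := (abs_le.1 m1).2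
  have m2' := (abs_le.1 m2).2
  push_cast at m1' m2'
  have hfin : ∑ p ∈ Icc 1 z with p.Prime, ic (p % 4 ≠ 3) / (p : ℝ) +
      ∑ p ∈ Icc 1 z with p.Prime, 1 / ((p : ℝ) * (p - 1)) ≤
      K + 1 / 2 * Real.log (Real.log z) := by
    rw [hK]
    linarith
  refine (Real.exp_le_exp.2 hfin).trans (le_of_eq ?_)
  rw [Real.exp_add]
  congr 1
  rw [Real.sqrt_eq_rpow, Real.rpow_def_of_pos hlz0]
  congr 1
  ring

end Pool.Agent.H65.MS
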